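import Pool.Agent.H56.HSMain

set_option autoImplicit false

namespace Pool.Agent.Results.MP_be6357_al.Chain

open Pool.Agent.H56.HS

theorem result (K : Type) [Field K] (n : ℕ) (I : Ideal (MvPolynomial (Fin n) K))
    (hI : IsPolymatroidal I) (i k : ℕ) (hi : 0 < i) (hk : i ≤ k) :
    associatedPrimes (MvPolynomial (Fin n) K) (MvPolynomial (Fin n) K ⧸ hs i (I ^ k)) ⊆
      associatedPrimes (MvPolynomial (Fin n) K) (MvPolynomial (Fin n) K ⧸ hs i (I ^ (k + 1))) :=
  ass hI hi hk

end Pool.Agent.Results.MP_be6357_al.Chain
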